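import Mathlib
import Pool.Agent.Helper14.MDim.Assemble

/-!
# The multiset dimension of all cylinders `C_n □ P_m` with `n ≥ 4` and `m ≥ 1`
-/

namespace Pool.Agent.Results.MP_f7c741_co.CylinderMdim

open SimpleGraph Pool.Agent.Helper14.MDim

/-- For all `n ≥ 4` and `m ≥ 1` the multiset dimension of `C_n □ P_m` is
* infinite for `(n, m) = (4, 1), (5, 1), (4, 2), (5, 2)`;
* `3` if `m = 1` and `n ≥ 6`, if `m` is even and `n = 6 m - 1`, `n = 6 m` or `n ≥ 6 m + 2`,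
  and if `m ≥ 3` is odd and `n = 6 m`, `n = 6 m + 1` or `n ≥ 6 m + 3`;
* `5` for the eleven pairs listed;
* `4` in all other cases. -/
theorem result (n m : ℕ) (hn : 4 ≤ n) (hm : 1 ≤ m) :
    mdim (cycleGraph n □ pathGraph m) =
      if (n = 4 ∨ n = 5) ∧ (m = 1 ∨ m = 2) then ⊤
      else if m = 1 ∨ (m % 2 = 0 ∧ (n + 1 = 6 * m ∨ n = 6 * m ∨ 6 * m + 2 ≤ n)) ∨
        (m % 2 = 1 ∧ (n = 6 * m ∨ n = 6 * m + 1 ∨ 6 * m + 3 ≤ n)) then 3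
      else if (n, m) ∈ [(6, 2), (7, 2), (4, 3), (5, 3), (6, 3), (7, 3), (4, 4), (5, 4), (6, 4),
        (6, 5), (7, 5)] then 5
      else 4 := by
  by_cases h1 : (n = 4 ∨ n = 5) ∧ (m = 1 ∨ m = 2)
  · rw [if_pos h1]
    obtain ⟨rfl | rfl, rfl | rfl⟩ := h1
    · exact top4_1
    · exact top4_2
    · exact top5_1
    · exact top5_2
  rw [if_neg h1]
  by_cases h2 : m = 1 ∨ (m % 2 = 0 ∧ (n + 1 = 6 * m ∨ n = 6 * m ∨ 6 * m + 2 ≤ n)) ∨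
        (m % 2 = 1 ∧ (n = 6 * m ∨ n = 6 * m + 1 ∨ 6 * m + 3 ≤ n))
  · rw [if_pos h2]
    exact le_antisymm (mdim_le_of_good n m (by unfold Good; omega)) (three_le_mdim n m hn hm)
  rw [if_neg h2]
  have hm2 : 2 ≤ m := by omega
  have hbad : Bad n m := bad_of_not_good n m hm2 (by unfold Good; omega)
  clear h2
  by_cases h3 : (n, m) ∈ [(6, 2), (7, 2), (4, 3), (5, 3), (6, 3), (7, 3), (4, 4), (5, 4), (6, 4),
        (6, 5), (7, 5)]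
  · rw [if_pos h3]
    clear hbad h1 hm hm2 hn
    simp only [List.mem_cons, Prod.mk.injEq, List.not_mem_nil, or_false] at h3
    rcases h3 with ⟨rfl, rfl⟩ | ⟨rfl, rfl⟩ | ⟨rfl, rfl⟩ | ⟨rfl, rfl⟩ | ⟨rfl, rfl⟩ | ⟨rfl, rfl⟩ |
      ⟨rfl, rfl⟩ | ⟨rfl, rfl⟩ | ⟨rfl, rfl⟩ | ⟨rfl, rfl⟩ | ⟨rfl, rfl⟩
    all_goals exact mdim_eq_five _ _ (by unfold Exc; simp)
  rw [if_neg h3]
  refine le_antisymm ?_ (four_le_mdim n m hn hm2 hbad)
  by_cases h4 : 6 ≤ m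
  · exact mdim_le_four n m hn h4
  · have h5 : ¬ Exc n m := by
      intro he
      apply h3
      unfold Exc at he
      clear h3 hbad h1 hm hm2 hn h4
      rcases he with ⟨rfl, rfl | rfl⟩ | ⟨rfl, rfl | rfl | rfl | rfl⟩ | ⟨rfl, rfl | rfl | rfl⟩ |
        ⟨rfl, rfl | rfl⟩
      all_goals simp
    exact mdim_le_four_small n m hn hm2 (by omega) hbad h5 (fun h => h1 ⟨h.2, Or.inr h.1⟩)

end Pool.Agent.Results.MP_f7c741_co.CylinderMdim
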